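import Mathlib

set_option autoImplicit false

namespace Pool.Agent.Results.MP_d25c28_al.NotAllFinite

/-! ### Definitions -/

/-- the integer `x` belongs to the submonoid `Γ` of `ℕ` -/
def Mem (Γ : AddSubmonoid ℕ) (x : ℤ) : Prop := ∃ n ∈ Γ, (n : ℤ) = x

/-- `Γ` is a numerical semigroup: its complement in `ℕ` is finite -/
def IsNumericalSemigroup (Γ : AddSubmonoid ℕ) : Prop := ((Γ : Set ℕ)ᶜ).Finite

/-- the minimal generators of `Γ` -/
def minGens (Γ : AddSubmonoid ℕ) : Set ℕ :=
  {g | g ∈ Γ ∧ g ≠ 0 ∧ ∀ a ∈ Γ, ∀ b ∈ Γ, a + b = g → a = 0 ∨ b = 0}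

/-- the embedding dimension -/
noncomputable def edim (Γ : AddSubmonoid ℕ) : ℕ∞ := (minGens Γ).encard

/-- the Frobenius number: the largest integer that is not in `Γ` -/
noncomputable def frob (Γ : AddSubmonoid ℕ) : ℤ := sSup {x : ℤ | ¬ Mem Γ x}

/-- pseudo-Frobenius numbers -/
def IsPF (Γ : AddSubmonoid ℕ) (x : ℤ) : Prop :=
  ¬ Mem Γ x ∧ ∀ s ∈ Γ, s ≠ 0 → Mem Γ (x + (s : ℤ))

/-- the type: the number of pseudo-Frobenius numbers -/
noncomputable def cmType (Γ : AddSubmonoid ℕ) : ℕ∞ := {x : ℤ | IsPF Γ x}.encard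

/-- almost symmetric numerical semigroups -/
def IsAlmostSymmetric (Γ : AddSubmonoid ℕ) : Prop :=
  ∀ x : ℤ, ¬ Mem Γ x → Mem Γ (frob Γ - x) ∨ (IsPF Γ x ∧ IsPF Γ (frob Γ - x))

/-- the supremum of the types of almost symmetric numerical semigroups of embedding dimension e -/
noncomputable def supType (e : ℕ) : ℕ∞ :=
  ⨆ Γ ∈ {Γ : AddSubmonoid ℕ | IsNumericalSemigroup Γ ∧ IsAlmostSymmetric Γ ∧ edim Γ = e},
    cmType Γ


/-- the set of minimal generators generates, and it lies in every generating set -/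
theorem minGens_spec (Γ : AddSubmonoid ℕ) :
    AddSubmonoid.closure (minGens Γ) = Γ ∧
      ∀ G : Set ℕ, AddSubmonoid.closure G = Γ → minGens Γ ⊆ G := by
  constructor
  · apply le_antisymm
    · rw [AddSubmonoid.closure_le]
      intro g hg
      exact hg.1
    · intro n
      induction n using Nat.strong_induction_on with
      | _ n ih =>
        intro hn
        by_cases h0 : n = 0
        · rw [h0]; exact zero_mem _
        by_cases hm : n ∈ minGens Γ
        · exact AddSubmonoid.subset_closure hm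
        · have : ∃ a ∈ Γ, ∃ b ∈ Γ, a + b = n ∧ a ≠ 0 ∧ b ≠ 0 := by
            by_contra hcon
            apply hm
            refine ⟨hn, h0, ?_⟩
            intro a ha b hb hab
            by_contra hab'
            rw [not_or] at hab'
            exact hcon ⟨a, ha, b, hb, hab, hab'.1, hab'.2⟩
          obtain ⟨a, ha, b, hb, hab, ha0, hb0⟩ := this
          rw [← hab]
          exact add_mem (ih a (by omega) ha) (ih b (by omega) hb)
  · intro G hG g hg
    by_contra hgG
    let M : AddSubmonoid ℕ :=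
      { carrier := {x | x ∈ Γ ∧ x ≠ g}
        zero_mem' := ⟨zero_mem _, fun h => hg.2.1 h.symm⟩
        add_mem' := by
          rintro x y ⟨hx, hx'⟩ ⟨hy, hy'⟩
          refine ⟨add_mem hx hy, fun h => ?_⟩
          rcases hg.2.2 x hx y hy h with h0 | h0
          · apply hy'; rw [h0, zero_add] at h; exact h
          · apply hx'; rw [h0, add_zero] at h; exact h }
    have hle : AddSubmonoid.closure G ≤ M := by
      rw [AddSubmonoid.closure_le]
      intro x hx
      refine ⟨?_, fun h => hgG (h ▸ hx)⟩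
      rw [← hG]
      exact AddSubmonoid.subset_closure hx
    have : g ∈ M := hle (by rw [hG]; exact hg.1)
    exact this.2 rfl


/-- value of a lattice point -/
def val (p q l a b c : ℤ) : ℤ := (p ^ 3 + q ^ 3) * l + q ^ 2 * a + p * q * b + p ^ 2 * c

def S (p q v : ℤ) : Prop :=
  ∃ l a b c : ℤ, (0 ≤ a ∧ a ≤ l) ∧ (0 ≤ b ∧ b ≤ l) ∧ (0 ≤ c ∧ c ≤ l) ∧ v = val p q l a b c

theorem solve {p q : ℤ} (hp : p ≠ 0) (hq : q ≠ 0) (hc : IsCoprime p q) {d1 d2 d3 k : ℤ}
    (h : q ^ 2 * d1 + p * q * d2 + p ^ 2 * d3 = (p ^ 3 + q ^ 3) * k) :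
    ∃ x y : ℤ, d1 = q * k + p * x ∧ d2 = p * y - q * x ∧ d3 = p * k - q * y := by
  have h1 : p ∣ q ^ 2 * (d1 - q * k) :=
    ⟨p ^ 2 * k - q * d2 - p * d3, by linear_combination h⟩
  have h2 : p ∣ d1 - q * k := (hc.pow_right (n := 2)).dvd_of_dvd_mul_left h1
  obtain ⟨x, hx⟩ := h2
  have h3 : q ^ 2 * x + q * d2 + p * d3 = p ^ 2 * k := by
    have : p * (q ^ 2 * x + q * d2 + p * d3) = p * (p ^ 2 * k) := by
      linear_combination h - q ^ 2 * hx
    exact mul_left_cancel₀ hp this
  have h4 : q ∣ p * (p * k - d3) := ⟨q * x + d2, by linear_combination -h3⟩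
  have h5 : q ∣ p * k - d3 := hc.symm.dvd_of_dvd_mul_left h4
  obtain ⟨y, hy⟩ := h5
  refine ⟨x, y, by linarith, ?_, by linarith⟩
  have : q * d2 = q * (p * y - q * x) := by linear_combination h3 + p * hy
  exact mul_left_cancel₀ hq this

theorem F_not_S {p q : ℤ} (hq : 1 ≤ q) (hpq : q < p) (hc : IsCoprime p q) :
    ¬ S p q (val p q (p + q - 1) (p - 1) (p - 1) (-1)) := by
  rintro ⟨l, a, b, c, ⟨ha0, ha⟩, ⟨hb0, hb⟩, ⟨hc0, hcl⟩, h⟩
  unfold val at h
  obtain ⟨x, y, h1, h2, h3⟩ := solve (p := p) (q := q) (d1 := a - (p - 1)) (d2 := b - (p - 1))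
    (d3 := c + 1) (k := p + q - 1 - l) (by omega) (by omega) hc (by linear_combination -h)
  obtain ⟨z, hz⟩ : ∃ z, z = p + q - 1 - l := ⟨_, rfl⟩
  rw [← hz] at h1 h3
  rcases le_or_gt z 0 with hz0 | hz0
  · have hx : 0 ≤ x := by
      by_contra hx
      have hx : x ≤ -1 := by omega
      nlinarith
    have hy : y ≤ -1 := by
      by_contra hy
      have hy : 0 ≤ y := by omega
      nlinarith
    nlinarith
  · have hx : x ≤ -1 := by
      by_contra hx
      have hx : 0 ≤ x := by omega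
      nlinarith
    have hy : y ≤ -1 := by
      by_contra hy
      have hy : 0 ≤ y := by omega
      nlinarith
    nlinarith

def InTile (p q a b c : ℤ) : Prop :=
  ((0 ≤ a ∧ a ≤ p - 1) ∧ (0 ≤ b ∧ b ≤ p - 1) ∧ (0 ≤ c ∧ c ≤ p - 1)) ∨
  ((p ≤ a ∧ a ≤ p + q - 1) ∧ (p - q ≤ b ∧ b ≤ p - 1) ∧ (p - q ≤ c ∧ c ≤ p - 1))

theorem box_inj {p q : ℤ} (hq : 1 ≤ q) (hpq : q < p) {d1 d2 d3 k x y : ℤ}
    (h1 : d1 = q * k + p * x) (h2 : d2 = p * y - q * x) (h3 : d3 = p * k - q * y)
    (b1 : d1 < p ∧ -p < d1) (b2 : d2 < p ∧ -p < d2) (b3 : d3 < p ∧ -p < d3) :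
    d1 = 0 ∧ d2 = 0 ∧ d3 = 0 := by
  have hp : 0 < p := by omega
  have hk : k = 0 := by
    rcases lt_trichotomy k 0 with hk | hk | hk
    · exfalso
      have hx : 0 ≤ x := by
        by_contra hx
        have hx : x ≤ -1 := by omega
        nlinarith
      have hy : y ≤ -1 := by
        by_contra hy
        have hy : 0 ≤ y := by omega
        nlinarith
      nlinarith
    · exact hk
    · exfalso
      have hx : x ≤ 0 := by
        by_contra hx
        have hx : 1 ≤ x := by omega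
        nlinarith
      have hy : 1 ≤ y := by
        by_contra hy
        have hy : y ≤ 0 := by omega
        nlinarith
      nlinarith
  subst hk
  have hx : x = 0 := by
    rcases lt_trichotomy x 0 with hx | hx | hx
    · nlinarith
    · exact hx
    · nlinarith
  subst hx
  have hy : y = 0 := by
    rcases lt_trichotomy y 0 with hy | hy | hy
    · nlinarith
    · exact hy
    · nlinarith
  subst hy
  simp [h1, h2, h3]

theorem mixed {p q : ℤ} (hq : 1 ≤ q) (hpq : q < p) {d1 d2 d3 k x y : ℤ}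
    (h1 : d1 = q * k + p * x) (h2 : d2 = p * y - q * x) (h3 : d3 = p * k - q * y)
    (b1 : 1 ≤ d1 ∧ d1 ≤ p + q - 1) (b2 : 1 - q ≤ d2 ∧ d2 ≤ p - 1) (b3 : 1 - q ≤ d3 ∧ d3 ≤ p - 1) :
    False := by
  have hp : 0 < p := by omega
  rcases lt_trichotomy k 0 with hk | hk | hk
  · have hx : 1 ≤ x := by
      by_contra hx
      have hx : x ≤ 0 := by omega
      nlinarith
    have hy : y ≤ -1 := by
      by_contra hy
      have hy : 0 ≤ y := by omega
      nlinarith
    nlinarith
  · subst hk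
    have hy : y ≤ 0 := by
      by_contra hy
      have hy : 1 ≤ y := by omega
      nlinarith
    have hx : x ≤ 0 := by
      by_contra hx
      have hx : 1 ≤ x := by omega
      nlinarith
    nlinarith
  · have hy : 1 ≤ y := by
      by_contra hy
      have hy : y ≤ 0 := by omega
      nlinarith
    have hx : 1 ≤ x := by
      by_contra hx
      have hx : x ≤ 0 := by omega
      nlinarith
    nlinarith

theorem tile_inj {p q : ℤ} (hq : 1 ≤ q) (hpq : q < p) (hc : IsCoprime p q)
    {a b c a' b' c' k : ℤ} (h : InTile p q a b c) (h' : InTile p q a' b' c')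
    (e : q ^ 2 * (a' - a) + p * q * (b' - b) + p ^ 2 * (c' - c) = (p ^ 3 + q ^ 3) * k) :
    a' - a = 0 ∧ b' - b = 0 ∧ c' - c = 0 := by
  obtain ⟨x, y, h1, h2, h3⟩ := solve (by omega) (by omega) hc e
  rcases h with ⟨⟨u1, u2⟩, ⟨u3, u4⟩, ⟨u5, u6⟩⟩ | ⟨⟨u1, u2⟩, ⟨u3, u4⟩, ⟨u5, u6⟩⟩ <;>
  rcases h' with ⟨⟨w1, w2⟩, ⟨w3, w4⟩, ⟨w5, w6⟩⟩ | ⟨⟨w1, w2⟩, ⟨w3, w4⟩, ⟨w5, w6⟩⟩
  · exact box_inj hq hpq h1 h2 h3 (by omega) (by omega) (by omega)
  · exact (mixed hq hpq h1 h2 h3 (by omega) (by omega) (by omega)).elim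
  · exact (mixed hq hpq (d1 := -(a' - a)) (d2 := -(b' - b)) (d3 := -(c' - c)) (k := -k) (x := -x)
      (y := -y) (by linear_combination -h1) (by linear_combination -h2) (by linear_combination -h3)
      (by omega) (by omega) (by omega)).elim
  · exact box_inj hq hpq h1 h2 h3 (by omega) (by omega) (by omega)


/-- every integer has a representation with reduced coordinates -/
theorem tile_exists {p q : ℤ} (hq : 1 ≤ q) (hpq : q < p) (hc : IsCoprime p q) (v : ℤ) :
    ∃ l a b c : ℤ, InTile p q a b c ∧ v = val p q l a b c := by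
  obtain ⟨P, rfl⟩ : ∃ P : ℕ, p = P := ⟨p.toNat, by omega⟩
  obtain ⟨Q, rfl⟩ : ∃ Q : ℕ, q = Q := ⟨q.toNat, by omega⟩
  have hA : 0 < P ^ 3 + Q ^ 3 := by
    have : 0 < P := by omega
    positivity
  have : NeZero (P ^ 3 + Q ^ 3) := ⟨hA.ne'⟩
  let g : (Fin P × Fin P × Fin P) ⊕ (Fin Q × Fin Q × Fin Q) → ℤ × ℤ × ℤ := fun s =>
    match s with
    | Sum.inl (x, y, z) => ((x : ℤ), (y : ℤ), (z : ℤ))
    | Sum.inr (x, y, z) => ((x : ℤ) + P, (y : ℤ) + (P - Q), (z : ℤ) + (P - Q))
  have hg : ∀ s, InTile P Q (g s).1 (g s).2.1 (g s).2.2 := by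
    rintro (⟨x, y, z⟩ | ⟨x, y, z⟩)
    · left
      have := x.2; have := y.2; have := z.2
      simp only [g]
      omega
    · right
      have := x.2; have := y.2; have := z.2
      simp only [g]
      omega
  have ginj : ∀ s t, (g s) = (g t) → s = t := by
    rintro (⟨x, y, z⟩ | ⟨x, y, z⟩) (⟨x', y', z'⟩ | ⟨x', y', z'⟩) h <;>
      simp only [g, Prod.mk.injEq] at h <;>
      have := x.2 <;> have := y.2 <;> have := z.2 <;> have := x'.2 <;> have := y'.2 <;>
      have := z'.2
    · simp only [Sum.inl.injEq, Prod.mk.injEq]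
      refine ⟨?_, ?_, ?_⟩ <;> ext <;> omega
    · omega
    · omega
    · simp only [Sum.inr.injEq, Prod.mk.injEq]
      refine ⟨?_, ?_, ?_⟩ <;> ext <;> omega
  let f : (Fin P × Fin P × Fin P) ⊕ (Fin Q × Fin Q × Fin Q) → ZMod (P ^ 3 + Q ^ 3) := fun s =>
    (((Q : ℤ) ^ 2 * (g s).1 + (P : ℤ) * Q * (g s).2.1 + (P : ℤ) ^ 2 * (g s).2.2 : ℤ) :
      ZMod (P ^ 3 + Q ^ 3))
  have finj : Function.Injective f := by
    intro s t hst
    have h1 := (ZMod.intCast_eq_intCast_iff_dvd_sub _ _ _).mp hst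
    obtain ⟨k, hk⟩ := h1
    have h2 := tile_inj (p := P) (q := Q) hq hpq hc (hg s) (hg t) (k := k) (by
      push_cast at hk
      linear_combination hk)
    apply ginj
    ext
    · linarith [h2.1]
    · linarith [h2.2.1]
    · linarith [h2.2.2]
  have fbij : Function.Bijective f := by
    rw [Fintype.bijective_iff_injective_and_card]
    refine ⟨finj, ?_⟩
    simp only [Fintype.card_sum, Fintype.card_prod, Fintype.card_fin, ZMod.card]
    ring
  obtain ⟨s, hs⟩ := fbij.2 ((v : ℤ) : ZMod (P ^ 3 + Q ^ 3))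
  have h1 := (ZMod.intCast_eq_intCast_iff_dvd_sub _ _ _).mp hs
  obtain ⟨k, hk⟩ := h1
  refine ⟨k, (g s).1, (g s).2.1, (g s).2.2, hg s, ?_⟩
  unfold val
  push_cast at hk
  linear_combination hk

/-- the Frobenius number -/
def Fr (p q : ℤ) : ℤ := val p q (p + q - 1) (p - 1) (p - 1) (-1)

def P1 (p q v : ℤ) : Prop :=
  ∃ a b c : ℤ, ((a = p - 1 ∧ (0 ≤ b ∧ b ≤ p - 1) ∧ c = 0) ∨
    (a = p - 1 ∧ b = 0 ∧ (0 ≤ c ∧ c ≤ p - 1)) ∨
    ((0 ≤ a ∧ a ≤ p - 3) ∧ b = p - 1 ∧ c = 0)) ∧ v = val p q (p - 2) a b c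

theorem tri {p q : ℤ} (hq : 1 ≤ q) (hpq : p = q + 2) (hc : IsCoprime p q) (v : ℤ) :
    S p q v ∨ S p q (Fr p q - v) ∨ P1 p q v ∨ P1 p q (Fr p q - v) := by
  obtain ⟨l, a, b, c, ht, hv⟩ := tile_exists hq (by omega) hc v
  rcases ht with ⟨⟨u1, u2⟩, ⟨u3, u4⟩, ⟨u5, u6⟩⟩ | ⟨⟨u1, u2⟩, ⟨u3, u4⟩, ⟨u5, u6⟩⟩
  · -- first box
    by_cases h : a ≤ l ∧ b ≤ l ∧ c ≤ l
    · left; exact ⟨l, a, b, c, ⟨u1, h.1⟩, ⟨u3, h.2.1⟩, ⟨u5, h.2.2⟩, hv⟩
    -- representation A of F - v
    by_cases hA : l ≤ a - 1 ∧ l ≤ b + q - 1 ∧ l ≤ c + q - 1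
    · right; left
      refine ⟨p + q - 2 - l, p + q - 1 - a, p - 1 - b, p - 1 - c, by omega, by omega, by omega, ?_⟩
      rw [hv]; unfold Fr val; ring
    by_cases hB : a ≤ q - 1 ∧ l ≤ b - 1 ∧ l ≤ c + q - 1
    · right; left
      refine ⟨p + q - 2 - l, q - 1 - a, p + q - 1 - b, p - 1 - c, by omega, by omega, by omega, ?_⟩
      rw [hv]; unfold Fr val; ring
    by_cases hC : a ≤ q - 1 ∧ b ≤ q - 1 ∧ l ≤ c - 1
    · right; left
      refine ⟨p + q - 2 - l, q - 1 - a, q - 1 - b, p + q - 1 - c, by omega, by omega, by omega, ?_⟩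
      rw [hv]; unfold Fr val; ring
    have hl : l = p - 2 := by omega
    subst hl
    by_cases h1 : a = p - 1
    · by_cases h2 : c = 0
      · right; right; left
        exact ⟨a, b, c, Or.inl ⟨h1, ⟨u3, u4⟩, h2⟩, hv⟩
      · right; right; left
        exact ⟨a, b, c, Or.inr (Or.inl ⟨h1, by omega, ⟨u5, u6⟩⟩), hv⟩
    · by_cases h2 : a = p - 2
      · by_cases h3 : b = p - 1
        · right; right; right
          refine ⟨p - 1, 0, p - 1 - c, Or.inr (Or.inl ⟨rfl, rfl, by omega⟩), ?_⟩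
          rw [hv, h2, h3, hpq]; unfold Fr val; ring
        · have h4 : c = p - 1 := by omega
          right; right; right
          refine ⟨p - 1, p - 1 - b, 0, Or.inl ⟨rfl, by omega, rfl⟩, ?_⟩
          rw [hv, h2, h4, hpq]; unfold Fr val; ring
      · by_cases h3 : b = p - 1
        · right; right; left
          exact ⟨a, b, c, Or.inr (Or.inr ⟨by omega, h3, by omega⟩), hv⟩
        · have h4 : c = p - 1 := by omega
          have h5 : b = p - 2 := by omega
          right; right; right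
          refine ⟨p - 3 - a, p - 1, 0, Or.inr (Or.inr ⟨by omega, rfl, rfl⟩), ?_⟩
          rw [hv, h4, h5, hpq]; unfold Fr val; ring
  · -- second box
    by_cases h1 : a ≤ l
    · left; exact ⟨l, a, b, c, by omega, by omega, by omega, hv⟩
    by_cases h2 : b + q ≤ l
    · left
      refine ⟨l, a - p, b + q, c, by omega, by omega, by omega, ?_⟩
      rw [hv]; unfold val; ring
    by_cases h3 : c + q ≤ l
    · left
      refine ⟨l, a - p, b + q - p, c + q, by omega, by omega, by omega, ?_⟩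
      rw [hv]; unfold val; ring
    right; left
    refine ⟨p + q - 2 - l, p + q - 1 - a, p - 1 - b, p - 1 - c, by omega, by omega, by omega, ?_⟩
    rw [hv]; unfold Fr val; ring

/-- offsets of the eight generators -/
def IsGen (p q g : ℤ) : Prop :=
  ∃ x y z : ℤ, (x = 0 ∨ x = 1) ∧ (y = 0 ∨ y = 1) ∧ (z = 0 ∨ z = 1) ∧ g = val p q 1 x y z

/-- adding a generator to an element of P1 lands in S -/
theorem P1_add {p q : ℤ} (hq : 1 ≤ q) (hpq : p = q + 2) {v g : ℤ} (hv : P1 p q v)
    (hg : IsGen p q g) : S p q (v + g) := by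
  obtain ⟨a, b, c, h, rfl⟩ := hv
  obtain ⟨x, y, z, hx, hy, hz, rfl⟩ := hg
  by_cases h1 : a + x ≤ p - 1 ∧ b + y ≤ p - 1 ∧ c + z ≤ p - 1
  · refine ⟨p - 1, a + x, b + y, c + z, by omega, by omega, by omega, ?_⟩
    unfold val; ring
  by_cases h2 : a + x = p
  · by_cases h3 : b + y ≤ 1 ∧ c + z ≤ p - 1
    · refine ⟨p - 1, 0, b + y + q, c + z, by omega, by omega, by omega, ?_⟩
      have : a = p - x := by omega
      subst this
      unfold val; ring
    · by_cases h4 : c + z ≤ 1
      · refine ⟨p - 1, 0, b + y - 2, c + z + q, by omega, by omega, by omega, ?_⟩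
        have : a = p - x := by omega
        subst this hpq
        unfold val; ring
      · have h5 : c + z = p := by omega
        refine ⟨p, 2, b + y, 0, by omega, by omega, by omega, ?_⟩
        have : a = p - x := by omega
        have : c = p - z := by omega
        subst a c hpq
        unfold val; ring
  · by_cases h3 : b + y = p
    · refine ⟨p - 1, a + x, 0, c + z + q, by omega, by omega, by omega, ?_⟩
      have : b = p - y := by omega
      subst this hpq
      unfold val; ring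
    · refine ⟨p, a + x - q, b + y, 0, by omega, by omega, by omega, ?_⟩
      have : c = p - z := by omega
      subst this hpq
      unfold val; ring

/-- adding a generator to the mirror image of an element of P1 lands in S -/
theorem P1_mirror_add {p q : ℤ} (hq : 1 ≤ q) (hpq : p = q + 2) {v g : ℤ}
    (hv : P1 p q (Fr p q - v))
    (hg : IsGen p q g) : S p q (v + g) := by
  obtain ⟨a, b, c, h, hv⟩ := hv
  have hv' : v = Fr p q - val p q (p - 2) a b c := by linarith
  obtain ⟨x, y, z, hx, hy, hz, rfl⟩ := hg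
  rw [hv']
  rcases h with ⟨rfl, hb, rfl⟩ | ⟨rfl, rfl, hc⟩ | ⟨ha, rfl, rfl⟩
  · by_cases h1 : z = 1
    · refine ⟨p, x, p - 1 - b + y, 0, by omega, by omega, by omega, ?_⟩
      subst h1 hpq
      unfold Fr val; ring
    · have hz : z = 0 := by omega
      by_cases h2 : p - 1 - b + y = p
      · refine ⟨p, x, 0, q - 1, by omega, by omega, by omega, ?_⟩
        have : b = y - 1 := by omega
        subst this hz hpq
        unfold Fr val; ring
      · refine ⟨p - 1, p - 2 + x, p - 1 - b + y, p - 1, by omega, by omega, by omega, ?_⟩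
        subst hz hpq
        unfold Fr val; ring
  · by_cases h1 : y = 1
    · by_cases h2 : p - 1 - c + z ≤ 1
      · refine ⟨p - 1, p - 2 + x, 0, p - 1 - c + z + q, by omega, by omega, by omega, ?_⟩
        subst h1 hpq
        unfold Fr val; ring
      · refine ⟨p, x, 0, p - 1 - c + z - 2, by omega, by omega, by omega, ?_⟩
        subst h1 hpq
        unfold Fr val; ring
    · have hy : y = 0 := by omega
      by_cases h2 : p - 1 - c + z = p
      · refine ⟨p, x, p - 1, 0, by omega, by omega, by omega, ?_⟩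
        have : c = z - 1 := by omega
        subst this hy hpq
        unfold Fr val; ring
      · refine ⟨p - 1, p - 2 + x, p - 1, p - 1 - c + z, by omega, by omega, by omega, ?_⟩
        subst hy hpq
        unfold Fr val; ring
  · by_cases h1 : z = 1
    · refine ⟨p, q - 1 - a + x + 2, y, 0, by omega, by omega, by omega, ?_⟩
      subst h1 hpq
      unfold Fr val; ring
    · have hz : z = 0 := by omega
      refine ⟨p - 1, q - 1 - a + x, q + y, p - 1, by omega, by omega, by omega, ?_⟩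
      subst hz hpq
      unfold Fr val; ring

theorem S_zero (p q : ℤ) : S p q 0 := ⟨0, 0, 0, 0, by omega, by omega, by omega, by unfold val; ring⟩

theorem S_add {p q v w : ℤ} (hv : S p q v) (hw : S p q w) : S p q (v + w) := by
  obtain ⟨l, a, b, c, h1, h2, h3, rfl⟩ := hv
  obtain ⟨l', a', b', c', h1', h2', h3', rfl⟩ := hw
  exact ⟨l + l', a + a', b + b', c + c', by omega, by omega, by omega, by unfold val; ring⟩

theorem S_gen {p q g : ℤ} (hg : IsGen p q g) : S p q g := by
  obtain ⟨x, y, z, hx, hy, hz, rfl⟩ := hg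
  exact ⟨1, x, y, z, by omega, by omega, by omega, rfl⟩

/-- a nonzero element is a generator plus an element of S; if it is not itself a generator the
second summand is at least A -/
theorem S_split {p q v : ℤ} (hv : S p q v) (h0 : v ≠ 0) :
    ∃ g w l a b c : ℤ, IsGen p q g ∧ (0 ≤ a ∧ a ≤ l) ∧ (0 ≤ b ∧ b ≤ l) ∧ (0 ≤ c ∧ c ≤ l) ∧
      w = val p q l a b c ∧ v = g + w := by
  obtain ⟨l, a, b, c, h1, h2, h3, rfl⟩ := hv
  have hl : 1 ≤ l := by
    by_contra hl
    have : l = 0 := by omega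
    have : a = 0 := by omega
    have : b = 0 := by omega
    have : c = 0 := by omega
    subst l a b c
    exact h0 (by unfold val; ring)
  refine ⟨val p q 1 (if 1 ≤ a then 1 else 0) (if 1 ≤ b then 1 else 0) (if 1 ≤ c then 1 else 0),
    _, l - 1, a - (if 1 ≤ a then 1 else 0), b - (if 1 ≤ b then 1 else 0),
    c - (if 1 ≤ c then 1 else 0), ⟨_, _, _, ?_, ?_, ?_, rfl⟩, ?_, ?_, ?_, rfl, ?_⟩
  · split_ifs <;> simp
  · split_ifs <;> simp
  · split_ifs <;> simp
  · split_ifs <;> omega
  · split_ifs <;> omega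
  · split_ifs <;> omega
  · unfold val; ring


def P (p q v : ℤ) : Prop := P1 p q v ∨ P1 p q (Fr p q - v)

theorem P_symm {p q v : ℤ} (h : P p q v) : P p q (Fr p q - v) := by
  rcases h with h | h
  · right; simpa using h
  · left; exact h

theorem A_pos {p q : ℤ} (hq : 1 ≤ q) (hpq : p = q + 2) : p ^ 2 < p ^ 3 + q ^ 3 := by
  subst hpq
  nlinarith [pow_pos (show (0 : ℤ) < q by omega) 3, pow_pos (show (0 : ℤ) < q by omega) 2]

theorem P1_bound {p q : ℤ} (hq : 1 ≤ q) (hpq : p = q + 2) {v : ℤ} (h : P1 p q v) :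
    (p ^ 3 + q ^ 3) * (p - 2) ≤ v ∧ v ≤ Fr p q - (p ^ 3 + q ^ 3) * (p - 2) := by
  obtain ⟨a, b, c, h, rfl⟩ := h
  have h2 : 0 ≤ q ^ 2 := by positivity
  have hp : 0 < p := by omega
  have h3 : 0 ≤ p * q := by positivity
  have h4 : 0 ≤ p ^ 2 := by positivity
  have hA := A_pos hq hpq
  have ha : 0 ≤ a ∧ a ≤ p - 1 := by omega
  have hb : 0 ≤ b ∧ b ≤ p - 1 := by omega
  have hc : 0 ≤ c ∧ c ≤ p - 1 := by omega
  have e1 : 0 ≤ q ^ 2 * a := mul_nonneg h2 ha.1
  have e2 : 0 ≤ p * q * b := mul_nonneg h3 hb.1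
  have e3 : 0 ≤ p ^ 2 * c := mul_nonneg h4 hc.1
  have f1 : q ^ 2 * a ≤ q ^ 2 * (p - 1) := mul_le_mul_of_nonneg_left ha.2 h2
  have f2 : p * q * b ≤ p * q * (p - 1) := mul_le_mul_of_nonneg_left hb.2 h3
  have f3 : p ^ 2 * c ≤ p ^ 2 * (p - 1) := mul_le_mul_of_nonneg_left hc.2 h4
  have f4 : 0 ≤ p * q * (p - 1) := mul_nonneg h3 (by omega)
  have f5 : 0 ≤ q ^ 3 := by positivity
  unfold Fr val
  constructor
  · linarith
  · rcases h with ⟨_, _, rfl⟩ | ⟨_, rfl, _⟩ | ⟨_, _, rfl⟩
    · nlinarith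
    · nlinarith
    · nlinarith

theorem P_bound {p q : ℤ} (hq : 1 ≤ q) (hpq : p = q + 2) {v : ℤ} (h : P p q v) :
    (p ^ 3 + q ^ 3) * (p - 2) ≤ v ∧ v ≤ Fr p q - (p ^ 3 + q ^ 3) * (p - 2) := by
  rcases h with h | h
  · exact P1_bound hq hpq h
  · have := P1_bound hq hpq h
    constructor <;> linarith

theorem Fr_lt {p q : ℤ} (hq : 1 ≤ q) (hpq : p = q + 2) :
    Fr p q - (p ^ 3 + q ^ 3) * (p - 2) < (p ^ 3 + q ^ 3) * (p - 2) + (p ^ 3 + q ^ 3) * (p - 2) := by
  subst hpq
  unfold Fr val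
  rcases eq_or_lt_of_le hq with rfl | hq2
  · norm_num
  · have h0 : 0 < q := by omega
    nlinarith [pow_pos h0 2, pow_pos h0 3, mul_pos (pow_pos h0 3) (show 0 < q - 1 by omega),
      mul_pos (pow_pos h0 2) (show 0 < q - 1 by omega), mul_pos h0 (show 0 < q - 1 by omega)]

theorem P_add {p q : ℤ} (hq : 1 ≤ q) (hpq : p = q + 2) {v s : ℤ} (h : P p q v) (hs : S p q s)
    (h0 : s ≠ 0) : S p q (v + s) := by
  obtain ⟨g, w, l, a, b, c, hg, ha, hb, hc, hw, rfl⟩ := S_split hs h0
  have hwS : S p q w := ⟨l, a, b, c, ha, hb, hc, hw⟩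
  rw [← add_assoc]
  apply S_add _ hwS
  rcases h with h | h
  · exact P1_add hq hpq h hg
  · exact P1_mirror_add hq hpq h hg

theorem A_pos' {p q : ℤ} (hq : 1 ≤ q) (hpq : p = q + 2) : 0 < p ^ 3 + q ^ 3 := by
  have := A_pos hq hpq
  have : 0 ≤ p ^ 2 := by positivity
  linarith

theorem P_not_S {p q : ℤ} (hq : 1 ≤ q) (hpq : p = q + 2) (hc : IsCoprime p q) {v : ℤ}
    (h : P p q v) : ¬ S p q v := by
  intro hS
  have hb := P_bound hq hpq h
  have hA := A_pos' hq hpq
  have hv : v ≠ 0 := by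
    have : 0 < (p ^ 3 + q ^ 3) * (p - 2) := mul_pos hA (by omega)
    linarith
  have := P_add hq hpq (P_symm h) hS hv
  rw [sub_add_cancel] at this
  exact F_not_S hq (by omega) hc this

theorem S_lower {p q : ℤ} (hq : 1 ≤ q) (hpq : p = q + 2) {v : ℤ} (h : S p q v) :
    v = 0 ∨ p ^ 3 + q ^ 3 ≤ v := by
  by_cases h0 : v = 0
  · left; exact h0
  right
  obtain ⟨g, w, l, a, b, c, hg, ha, hb, hc, hw, rfl⟩ := S_split h h0
  obtain ⟨x, y, z, hx, hy, hz, rfl⟩ := hg
  have hp : 0 < p := by omega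
  have hA := A_pos' hq hpq
  have h1 : 0 ≤ q ^ 2 * (x + a) := mul_nonneg (by positivity) (by omega)
  have h2 : 0 ≤ p * q * (y + b) := mul_nonneg (by positivity) (by omega)
  have h3 : 0 ≤ p ^ 2 * (z + c) := mul_nonneg (by positivity) (by omega)
  have h4 : 0 ≤ (p ^ 3 + q ^ 3) * l := mul_nonneg hA.le (by omega)
  rw [hw]
  unfold val
  nlinarith

theorem S_nonneg {p q : ℤ} (hq : 1 ≤ q) (hpq : p = q + 2) {v : ℤ} (h : S p q v) : 0 ≤ v := by
  have hA := A_pos' hq hpq
  rcases S_lower hq hpq h with h | h <;> linarith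

theorem S_big {p q : ℤ} (hq : 1 ≤ q) (hpq : p = q + 2) (hc : IsCoprime p q) {v : ℤ}
    (hv : Fr p q < v) : S p q v := by
  have hA := A_pos' hq hpq
  have h0 : 0 < (p ^ 3 + q ^ 3) * (p - 2) := mul_pos hA (by omega)
  rcases tri hq hpq hc v with h | h | h | h
  · exact h
  · have := S_nonneg hq hpq h; linarith
  · have := P1_bound hq hpq h; linarith
  · have := P1_bound hq hpq h; linarith

/-- the special pseudo-Frobenius numbers -/
def ex (p q b : ℤ) : ℤ := val p q (p - 2) (p - 1) b 0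

theorem ex_P1 {p q b : ℤ} (h0 : 0 ≤ b) (h1 : b ≤ p - 1) : P1 p q (ex p q b) :=
  ⟨p - 1, b, 0, Or.inl ⟨rfl, ⟨h0, h1⟩, rfl⟩, rfl⟩

theorem ex_lt {p q b : ℤ} (hq : 1 ≤ q) (hpq : p = q + 2) (h1 : b ≤ p - 1) :
    2 * ex p q b < Fr p q := by
  have h3 : 0 ≤ p * q := mul_nonneg (by omega) (by omega)
  have f2 : p * q * b ≤ p * q * (p - 1) := mul_le_mul_of_nonneg_left h1 h3
  have : 2 * ex p q b - Fr p q ≤ 2 * (ex p q b - p * q * b + p * q * (p - 1)) - Fr p q := by
    linarith
  have h4 : 2 * (ex p q b - p * q * b + p * q * (p - 1)) - Fr p q = - q ^ 2 - 6 * q - 4 := by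
    subst hpq
    unfold ex Fr val
    ring
  nlinarith

theorem ex_inj {p q b b' : ℤ} (hq : 1 ≤ q) (hpq : p = q + 2) (h : ex p q b = ex p q b') :
    b = b' := by
  have h3 : 0 < p * q := mul_pos (by omega) (by omega)
  unfold ex val at h
  have : p * q * b = p * q * b' := by linarith
  exact mul_left_cancel₀ h3.ne' this

/-- membership in the enlarged semigroup -/
def T (p q j v : ℤ) : Prop := S p q v ∨ ∃ b, 0 ≤ b ∧ b < j ∧ v = Fr p q - ex p q b

theorem T_add {p q j v w : ℤ} (hq : 1 ≤ q) (hpq : p = q + 2) (hc : IsCoprime p q) (hj : j ≤ p)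
    (hv : T p q j v) (hw : T p q j w) : T p q j (v + w) := by
  rcases hv with hv | ⟨b, h0, h1, hv⟩
  · rcases hw with hw | ⟨b, h0, h1, hw⟩
    · left; exact S_add hv hw
    · by_cases hz : v = 0
      · right; exact ⟨b, h0, h1, by rw [hz, zero_add]; exact hw⟩
      · left
        have : P p q w := by
          right; rw [hw]; simpa using ex_P1 h0 (by omega)
        rw [add_comm]
        exact P_add hq hpq this hv hz
  · have hPv : P p q v := by
      right; rw [hv]; simpa using ex_P1 h0 (by omega)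
    rcases hw with hw | ⟨b', h0', h1', hw⟩
    · by_cases hz : w = 0
      · right; exact ⟨b, h0, h1, by rw [hz, add_zero]; exact hv⟩
      · left
        exact P_add hq hpq hPv hw hz
    · left
      apply S_big hq hpq hc
      have e1 := ex_lt (b := b) hq hpq (by omega)
      have e2 := ex_lt (b := b') hq hpq (by omega)
      linarith

theorem T_nonneg {p q j v : ℤ} (hq : 1 ≤ q) (hpq : p = q + 2) (hj : j ≤ p)
    (hv : T p q j v) : 0 ≤ v := by
  rcases hv with hv | ⟨b, h0, h1, hv⟩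
  · exact S_nonneg hq hpq hv
  · have e1 := ex_lt (b := b) hq hpq (by omega)
    have := (P1_bound hq hpq (ex_P1 (q := q) h0 (show b ≤ p - 1 by omega))).1
    have h0 : 0 < (p ^ 3 + q ^ 3) * (p - 2) := mul_pos (A_pos' hq hpq) (by omega)
    linarith

theorem Fr_not_T {p q j : ℤ} (hq : 1 ≤ q) (hpq : p = q + 2) (hc : IsCoprime p q) (hj : j ≤ p) :
    ¬ T p q j (Fr p q) := by
  rintro (h | ⟨b, h0, h1, h⟩)
  · exact F_not_S hq (by omega) hc h
  · have := (P1_bound hq hpq (ex_P1 (q := q) h0 (show b ≤ p - 1 by omega))).1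
    have h0 : 0 < (p ^ 3 + q ^ 3) * (p - 2) := mul_pos (A_pos' hq hpq) (by omega)
    linarith

/-- an element of P that is outside T together with its mirror is pseudo-Frobenius -/
theorem P_add_T {p q j y s : ℤ} (hq : 1 ≤ q) (hpq : p = q + 2) (hc : IsCoprime p q) (hj : j ≤ p)
    (hy : P p q y) (h2 : ¬ T p q j (Fr p q - y)) (hs : T p q j s) (hs0 : s ≠ 0) :
    T p q j (y + s) := by
  rcases hs with hs | ⟨b, h0, h1, hs⟩
  · left; exact P_add hq hpq hy hs hs0
  · have hPs : P p q s := by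
      right; rw [hs]; simpa using ex_P1 h0 (by omega)
    have key : ∀ w, P p q w → w = y + s → False := by
      intro w hw hws
      have b1 := P_bound hq hpq hw
      have b2 := P_bound hq hpq hy
      have b3 := P_bound hq hpq hPs
      have b4 := Fr_lt hq hpq
      linarith
    rcases tri hq hpq hc (y + s) with h | h | h | h
    · left; exact h
    · exfalso
      by_cases hz : Fr p q - (y + s) = 0
      · apply h2
        right; exact ⟨b, h0, h1, by linarith⟩
      · apply h2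
        left
        have := P_add hq hpq hPs h hz
        have e : s + (Fr p q - (y + s)) = Fr p q - y := by ring
        rwa [e] at this
    · exact (key _ (Or.inl h) rfl).elim
    · exact (key _ (Or.inr h) rfl).elim


/-! ### The family -/

/-- the semigroup -/
def fam (p q j : ℤ) (hq : 1 ≤ q) (hpq : p = q + 2) (hc : IsCoprime p q) (hj : j ≤ p) :
    AddSubmonoid ℕ where
  carrier := {n | T p q j n}
  zero_mem' := by
    simp only [Set.mem_ofPred_eq]
    left
    simpa using S_zero p q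
  add_mem' := by
    intro a b ha hb
    simp only [Set.mem_ofPred_eq] at *
    push_cast
    exact T_add hq hpq hc hj ha hb

theorem mem_fam {p q j : ℤ} (hq : 1 ≤ q) (hpq : p = q + 2) (hc : IsCoprime p q) (hj : j ≤ p)
    (n : ℕ) : n ∈ fam p q j hq hpq hc hj ↔ T p q j n := Iff.rfl

theorem Mem_fam {p q j : ℤ} (hq : 1 ≤ q) (hpq : p = q + 2) (hc : IsCoprime p q) (hj : j ≤ p)
    (x : ℤ) : Mem (fam p q j hq hpq hc hj) x ↔ T p q j x := by
  constructor
  · rintro ⟨n, hn, rfl⟩
    exact hn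
  · intro h
    refine ⟨x.toNat, ?_, ?_⟩
    · rw [mem_fam, Int.toNat_of_nonneg (T_nonneg hq hpq hj h)]; exact h
    · exact Int.toNat_of_nonneg (T_nonneg hq hpq hj h)

theorem fam_num {p q j : ℤ} (hq : 1 ≤ q) (hpq : p = q + 2) (hc : IsCoprime p q) (hj : j ≤ p) :
    IsNumericalSemigroup (fam p q j hq hpq hc hj) := by
  apply (Set.finite_Iic (Fr p q).toNat).subset
  intro n hn
  rw [Set.mem_compl_iff, SetLike.mem_coe, mem_fam] at hn
  rw [Set.mem_Iic]
  by_contra hlt
  exact hn (Or.inl (S_big hq hpq hc (by omega)))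

theorem fam_frob {p q j : ℤ} (hq : 1 ≤ q) (hpq : p = q + 2) (hc : IsCoprime p q) (hj : j ≤ p) :
    frob (fam p q j hq hpq hc hj) = Fr p q := by
  apply IsGreatest.csSup_eq
  constructor
  · simp only [Set.mem_ofPred_eq]
    rw [Mem_fam]
    exact Fr_not_T hq hpq hc hj
  · intro x hx
    simp only [Set.mem_ofPred_eq] at hx
    rw [Mem_fam] at hx
    by_contra hlt
    exact hx (Or.inl (S_big hq hpq hc (by omega)))

theorem fam_PF {p q j : ℤ} (hq : 1 ≤ q) (hpq : p = q + 2) (hc : IsCoprime p q) (hj : j ≤ p)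
    {y : ℤ} (hy : P p q y) (h1 : ¬ T p q j y) (h2 : ¬ T p q j (Fr p q - y)) :
    IsPF (fam p q j hq hpq hc hj) y := by
  constructor
  · rw [Mem_fam]; exact h1
  · intro s hs hs0
    rw [Mem_fam]
    rw [mem_fam] at hs
    exact P_add_T hq hpq hc hj hy h2 hs (by exact_mod_cast hs0)

theorem fam_AS {p q j : ℤ} (hq : 1 ≤ q) (hpq : p = q + 2) (hc : IsCoprime p q) (hj : j ≤ p) :
    IsAlmostSymmetric (fam p q j hq hpq hc hj) := by
  intro x hx
  rw [Mem_fam] at hx
  rw [fam_frob, Mem_fam]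
  by_cases h : T p q j (Fr p q - x)
  · left; exact h
  right
  have hP : P p q x := by
    rcases tri hq hpq hc x with h' | h' | h' | h'
    · exact (hx (Or.inl h')).elim
    · exact (h (Or.inl h')).elim
    · exact Or.inl h'
    · exact Or.inr h'
  exact ⟨fam_PF hq hpq hc hj hP hx h,
    fam_PF hq hpq hc hj (P_symm hP) h (by rw [sub_sub_cancel]; exact hx)⟩

theorem fam_type {p q j : ℤ} (hq : 1 ≤ q) (hpq : p = q + 2) (hc : IsCoprime p q) (hj : j ≤ p)
    (hj0 : 0 ≤ j) (n : ℕ) (hn : (n : ℤ) ≤ p - j) :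
    (n : ℕ∞) ≤ cmType (fam p q j hq hpq hc hj) := by
  have hinj : Function.Injective (fun i : Fin n => ex p q (j + i)) := by
    intro i i' h
    have := ex_inj hq hpq h
    ext
    omega
  have hsub : Set.range (fun i : Fin n => ex p q (j + i)) ⊆
      {x : ℤ | IsPF (fam p q j hq hpq hc hj) x} := by
    rintro _ ⟨i, rfl⟩
    have hi := i.2
    simp only [Set.mem_ofPred_eq]
    have hP : P p q (ex p q (j + i)) := Or.inl (ex_P1 (by omega) (by omega))
    apply fam_PF hq hpq hc hj hP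
    · rintro (h | ⟨b, h0, h1, h⟩)
      · exact P_not_S hq hpq hc hP h
      · have e1 := ex_lt (b := b) hq hpq (by omega)
        have e2 := ex_lt (b := j + i) hq hpq (by omega)
        linarith
    · rintro (h | ⟨b, h0, h1, h⟩)
      · exact P_not_S hq hpq hc (P_symm hP) h
      · have : ex p q (j + i) = ex p q b := by linarith
        have := ex_inj hq hpq this
        omega
  have hcard : (Set.range (fun i : Fin n => ex p q (j + i))).encard = n := by
    rw [← Set.image_univ, hinj.encard_image, Set.encard_univ]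
    simp
  calc (n : ℕ∞) = _ := hcard.symm
    _ ≤ _ := Set.encard_le_encard hsub

/-- parametrisation of the minimal generators -/
def par (p q j : ℤ) : (Bool × Bool × Bool) ⊕ (Fin j.toNat) → ℤ := fun s =>
  match s with
  | Sum.inl (x, y, z) => val p q 1 (if x then 1 else 0) (if y then 1 else 0) (if z then 1 else 0)
  | Sum.inr i => Fr p q - ex p q i

theorem gen_lt {p q g : ℤ} (hq : 1 ≤ q) (hpq : p = q + 2) (hg : IsGen p q g) :
    p ^ 3 + q ^ 3 ≤ g ∧ g < 2 * (p ^ 3 + q ^ 3) := by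
  obtain ⟨x, y, z, hx, hy, hz, rfl⟩ := hg
  have h2 : 0 ≤ q ^ 2 := by positivity
  have hp : 0 < p := by omega
  have h3 : 0 ≤ p * q := by positivity
  have h4 : 0 ≤ p ^ 2 := by positivity
  have e1 : 0 ≤ q ^ 2 * x := mul_nonneg h2 (by omega)
  have e2 : 0 ≤ p * q * y := mul_nonneg h3 (by omega)
  have e3 : 0 ≤ p ^ 2 * z := mul_nonneg h4 (by omega)
  have f1 : q ^ 2 * x ≤ q ^ 2 * 1 := mul_le_mul_of_nonneg_left (by omega) h2
  have f2 : p * q * y ≤ p * q * 1 := mul_le_mul_of_nonneg_left (by omega) h3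
  have f3 : p ^ 2 * z ≤ p ^ 2 * 1 := mul_le_mul_of_nonneg_left (by omega) h4
  have hA : q ^ 2 + p * q + p ^ 2 < p ^ 3 + q ^ 3 := by
    subst hpq
    have h0 : 0 < q := by omega
    nlinarith [pow_pos h0 2, pow_pos h0 3]
  unfold val
  constructor <;> linarith

theorem isGen_iff {p q g : ℤ} : IsGen p q g ↔ ∃ x y z : Bool,
    g = val p q 1 (if x then 1 else 0) (if y then 1 else 0) (if z then 1 else 0) := by
  constructor
  · rintro ⟨x, y, z, hx, hy, hz, rfl⟩
    refine ⟨decide (x = 1), decide (y = 1), decide (z = 1), ?_⟩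
    rcases hx with rfl | rfl <;> rcases hy with rfl | rfl <;> rcases hz with rfl | rfl <;> simp
  · rintro ⟨x, y, z, rfl⟩
    refine ⟨_, _, _, ?_, ?_, ?_, rfl⟩ <;> split_ifs <;> simp

theorem minGens_fam {p q j : ℤ} (hq : 1 ≤ q) (hpq : p = q + 2) (hc : IsCoprime p q)
    (hj : j ≤ p) :
    minGens (fam p q j hq hpq hc hj) = Set.range (fun s => (par p q j s).toNat) := by
  have hA := A_pos' hq hpq
  have hTA : ∀ v, T p q j v → v ≠ 0 → p ^ 3 + q ^ 3 ≤ v := by
    rintro v (h | ⟨b, h0, h1, h⟩) hv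
    · rcases S_lower hq hpq h with h | h
      · exact (hv h).elim
      · exact h
    · have hP : P p q v := Or.inr (by rw [h]; simpa using ex_P1 h0 (by omega))
      have := (P_bound hq hpq hP).1
      have h1 : (p ^ 3 + q ^ 3) * 1 ≤ (p ^ 3 + q ^ 3) * (p - 2) :=
        mul_le_mul_of_nonneg_left (by omega) hA.le
      linarith
  ext n
  constructor
  · rintro ⟨hn, hn0, hmin⟩
    rw [mem_fam] at hn
    rcases hn with hn | ⟨b, h0, h1, h⟩
    · obtain ⟨g, w, l, a, b, c, hg, ha, hb, hc', hw, hv⟩ := S_split hn (by exact_mod_cast hn0)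
      have hwS : S p q w := ⟨l, a, b, c, ha, hb, hc', hw⟩
      have hg2 := gen_lt hq hpq hg
      have hw0 := S_nonneg hq hpq hwS
      have := hmin g.toNat (by rw [mem_fam, Int.toNat_of_nonneg (by omega)]; exact Or.inl (S_gen hg))
        w.toNat (by rw [mem_fam, Int.toNat_of_nonneg hw0]; exact Or.inl hwS) (by omega)
      have hw00 : w = 0 := by omega
      obtain ⟨x, y, z, hxyz⟩ := isGen_iff.mp hg
      refine ⟨Sum.inl (x, y, z), ?_⟩
      simp only [par]
      rw [← hxyz]
      omega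
    · refine ⟨Sum.inr ⟨b.toNat, by omega⟩, ?_⟩
      simp only [par]
      rw [Int.toNat_of_nonneg h0, ← h]
      simp
  · rintro ⟨s, rfl⟩
    have hT : T p q j (par p q j s) := by
      rcases s with ⟨x, y, z⟩ | i
      · left
        apply S_gen
        exact isGen_iff.mpr ⟨x, y, z, rfl⟩
      · right
        exact ⟨i, by omega, by have := i.2; omega, rfl⟩
    have hnn := T_nonneg hq hpq hj hT
    have hpos : 0 < par p q j s := by
      rcases s with ⟨x, y, z⟩ | i
      · have := gen_lt hq hpq (isGen_iff.mpr ⟨x, y, z, rfl⟩)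
        simp only [par]
        linarith
      · have hi := i.2
        have hP : P p q (par p q j (Sum.inr i)) :=
          Or.inr (by simp only [par]; simpa using ex_P1 (q := q) (b := i) (by omega) (by omega))
        have := (P_bound hq hpq hP).1
        have h0 : 0 < (p ^ 3 + q ^ 3) * (p - 2) := mul_pos hA (by omega)
        linarith
    refine ⟨?_, ?_, ?_⟩
    · simp only
      rw [mem_fam, Int.toNat_of_nonneg hnn]; exact hT
    · simp only
      omega
    · intro a ha b hb hab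
      simp only at hab
      rw [mem_fam] at ha hb
      by_contra hcon
      rw [not_or] at hcon
      obtain ⟨ha0, hb0⟩ := hcon
      have ha0' : (a : ℤ) ≠ 0 := by exact_mod_cast ha0
      have hb0' : (b : ℤ) ≠ 0 := by exact_mod_cast hb0
      have ha1 := hTA _ ha ha0'
      have hb1 := hTA _ hb hb0'
      have hab' : (a : ℤ) + b = par p q j s := by omega
      rcases s with ⟨x, y, z⟩ | i
      · have := gen_lt hq hpq (isGen_iff.mpr ⟨x, y, z, rfl⟩)
        simp only [par] at hab'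
        linarith
      · have hi := i.2
        have hP : P p q (par p q j (Sum.inr i)) :=
          Or.inr (by simp only [par]; simpa using ex_P1 (q := q) (b := i) (by omega) (by omega))
        have hnS := P_not_S hq hpq hc hP
        have hbd := (P_bound hq hpq hP).2
        have h00 : 0 < (p ^ 3 + q ^ 3) * (p - 2) := mul_pos hA (by omega)
        rcases ha with ha | ⟨b1, h0, h1, h⟩
        · rcases hb with hb | ⟨b2, h0', h1', h'⟩
          · exact hnS (hab' ▸ S_add ha hb)
          · have hPb : P p q b := Or.inr (by rw [h']; simpa using ex_P1 h0' (by omega))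
            have := P_add hq hpq hPb ha ha0'
            rw [add_comm, hab'] at this
            exact hnS this
        · have hPa : P p q a := Or.inr (by rw [h]; simpa using ex_P1 h0 (by omega))
          rcases hb with hb | ⟨b2, h0', h1', h'⟩
          · have := P_add hq hpq hPa hb hb0'
            rw [hab'] at this
            exact hnS this
          · have e1 := ex_lt (b := b1) hq hpq (by omega)
            have e2 := ex_lt (b := b2) hq hpq (by omega)
            linarith

theorem par_inj {p q j : ℤ} (hq : 1 ≤ q) (hpq : p = q + 2) (hc : IsCoprime p q) (hj : j ≤ p) :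
    Function.Injective (par p q j) := by
  have key : ∀ s t, par p q j (Sum.inl s) ≠ par p q j (Sum.inr t) := by
    intro s t h
    obtain ⟨x, y, z⟩ := s
    have ht := t.2
    have hP : P p q (par p q j (Sum.inr t)) :=
      Or.inr (by simp only [par]; simpa using ex_P1 (q := q) (b := t) (by omega) (by omega))
    have hS : S p q (par p q j (Sum.inl (x, y, z))) := S_gen (isGen_iff.mpr ⟨x, y, z, rfl⟩)
    rw [h] at hS
    exact P_not_S hq hpq hc hP hS
  intro s t h
  rcases s with ⟨x, y, z⟩ | i <;> rcases t with ⟨x', y', z'⟩ | i'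
  · simp only [par] at h
    unfold val at h
    have h1 : 0 < q ^ 2 := by have : 0 < q := by omega
                              positivity
    have h2 : q ^ 2 < p * q := by subst hpq; nlinarith
    have h3 : p * q < p ^ 2 := by subst hpq; nlinarith
    have h4 : q ^ 2 + p * q ≠ p ^ 2 := by
      subst hpq
      intro h
      have h5 : (q - 1) ^ 2 = 5 := by linarith
      have h6 : q ≤ 3 := by
        by_contra h7
        have : 4 ≤ q := by omega
        nlinarith
      interval_cases q <;> simp at h5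
    generalize q ^ 2 = α at *
    generalize p * q = β at *
    generalize p ^ 2 = γ at *
    rcases x <;> rcases y <;> rcases z <;> rcases x' <;> rcases y' <;> rcases z' <;>
      simp at h ⊢ <;> omega
  · exact (key _ _ h).elim
  · exact (key _ _ h.symm).elim
  · simp only [par] at h
    have : ex p q i = ex p q i' := by linarith
    have := ex_inj hq hpq this
    congr 1
    ext
    exact_mod_cast this

theorem fam_edim {p q j : ℤ} (hq : 1 ≤ q) (hpq : p = q + 2) (hc : IsCoprime p q) (hj : j ≤ p) :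
    edim (fam p q j hq hpq hc hj) = 8 + j.toNat := by
  have hinj : Function.Injective (fun s => (par p q j s).toNat) := by
    intro s t h
    apply par_inj hq hpq hc hj
    have hnn : ∀ s, 0 ≤ par p q j s := by
      intro s
      have hT : T p q j (par p q j s) := by
        rcases s with ⟨x, y, z⟩ | i
        · left
          apply S_gen
          exact isGen_iff.mpr ⟨x, y, z, rfl⟩
        · right
          exact ⟨i, by omega, by have := i.2; omega, rfl⟩
      exact T_nonneg hq hpq hj hT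
    have h1 := hnn s
    have h2 := hnn t
    simp only at h
    omega
  unfold edim
  rw [minGens_fam hq hpq hc hj, ← Set.image_univ, hinj.encard_image, Set.encard_univ]
  simp

theorem main : ∀ e : ℕ, 8 ≤ e → supType e = ⊤ := by
  intro e he
  rw [ENat.eq_top_iff_forall_ge]
  intro n
  obtain ⟨j, rfl⟩ := Nat.exists_eq_add_of_le he
  have hq : (1 : ℤ) ≤ 2 * (j + n) + 1 := by omega
  have hpq : (2 * (j + n) + 3 : ℤ) = (2 * (j + n) + 1) + 2 := by ring
  have hc : IsCoprime (2 * (j + n) + 3 : ℤ) (2 * (j + n) + 1) :=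
    ⟨-(j + n : ℤ), j + n + 1, by ring⟩
  have hj : (j : ℤ) ≤ 2 * (j + n) + 3 := by omega
  have h1 := fam_type hq hpq hc hj (by omega) n (by omega)
  have h2 : fam _ _ _ hq hpq hc hj ∈ {Γ : AddSubmonoid ℕ | IsNumericalSemigroup Γ ∧
      IsAlmostSymmetric Γ ∧ edim Γ = ((8 + j : ℕ) : ℕ∞)} := by
    refine ⟨fam_num hq hpq hc hj, fam_AS hq hpq hc hj, ?_⟩
    rw [fam_edim hq hpq hc hj]
    simp
  exact h1.trans (le_iSup₂ (f := fun Γ (_ : Γ ∈ {Γ : AddSubmonoid ℕ | IsNumericalSemigroup Γ ∧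
      IsAlmostSymmetric Γ ∧ edim Γ = ((8 + j : ℕ) : ℕ∞)}) => cmType Γ) _ h2)


/-- Not every supremum of types is finite. -/
theorem result : ¬ ∀ e : ℕ, supType e < ⊤ := fun h => (h 8).ne (main 8 le_rfl)

end Pool.Agent.Results.MP_d25c28_al.NotAllFinite
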